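import Pool.Agent.Veblen.Threshold

set_option autoImplicit false

namespace Pool.Agent.Results.MP_b5794e_co.MonotonicityFails

open Pool.Agent.Veblen

/-- There are 3-graphs `𝓗 ⊆ 𝓖` with `|V(𝓖)| = n = 4`, `Th_n(𝓗) = 18` and `Th_n(𝓖) = 9`. -/
theorem result : ∃ 𝓗 𝓖 : KGraph 3, 𝓗.Sub 𝓖 ∧ 𝓖.V.card = 4 ∧
    Th 𝓖.V.card 𝓗 = 18 ∧ Th 𝓖.V.card 𝓖 = 9 :=
  ⟨H0, G0, ⟨by decide, by decide⟩, rfl, Th_H0, Th_G0⟩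

end Pool.Agent.Results.MP_b5794e_co.MonotonicityFails
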